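import Mathlib
import Pool.Agent.Helper4.FSS.Defs2

/-!
Block FSS-VG: the groups `V_(G,θ)`.
-/

set_option autoImplicit false

namespace Pool.Helper4.FSS

open Set

namespace VG

theorem pre_nil (η : D) : D.pre [] η = η := Subtype.ext rfl

theorem pre_append (u v : List Bool) (η : D) : D.pre (u ++ v) η = D.pre u (D.pre v η) :=
  Subtype.ext (Stream'.append_append_stream u v η.1)

theorem pre_inj {u : List Bool} {η ξ : D} (h : D.pre u η = D.pre u ξ) : η = ξ :=
  Subtype.ext (Stream'.append_right_injective _ _ _ (congrArg Subtype.val h))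

theorem pre_left {u v : List Bool} {η ξ : D} (h : D.pre u η = D.pre v ξ)
    (hl : u.length = v.length) : u = v :=
  Stream'.append_left_injective _ _ _ _ (congrArg Subtype.val h) hl

/-- the number of ones of a finite word -/
def cnt : List Bool → ℕ
  | [] => 0
  | b :: u => (if b then 1 else 0) + cnt u

theorem ones_bit (b : Bool) (η : D) :
    D.ones (D.pre [b] η) = (if b then 1 else 0) + D.ones η := by
  have h1 : {n : ℕ | (D.pre [b] η).1.get n = true} =
      (if b then {0} else ∅) ∪ Nat.succ '' {n : ℕ | η.1.get n = true} := by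
    ext n
    rcases n with _ | n
    · cases b <;> simp [D.pre, Stream'.get_zero_cons]
    · have : (D.pre [b] η).1.get (n + 1) = η.1.get n := rfl
      cases b <;> simp [this]
  unfold D.ones
  rw [h1]
  have hfin : (Nat.succ '' {n : ℕ | η.1.get n = true}).Finite := η.2.image _
  cases b
  · simp only [Bool.false_eq_true, if_false, empty_union, zero_add]
    exact ncard_image_of_injective _ Nat.succ_injective
  · simp only [if_true]
    rw [ncard_union_eq (by simp) (finite_singleton 0) hfin, ncard_singleton,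
      ncard_image_of_injective _ Nat.succ_injective]

theorem ones_pre (u : List Bool) (η : D) : D.ones (D.pre u η) = cnt u + D.ones η := by
  induction u with
  | nil => simp [pre_nil, cnt]
  | cons b u ih =>
    have : D.pre (b :: u) η = D.pre [b] (D.pre u η) := Subtype.ext rfl
    rw [this, ones_bit, ih, cnt]
    omega

/-- the zero sequence -/
def zeroD : D := ⟨Stream'.const false, by
  have : {n : ℕ | (Stream'.const false).get n = true} = ∅ := by
    ext n; simp
  rw [this]; exact finite_empty⟩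

/-- the splitting of a sequence at depth `n` -/
theorem exists_split (n : ℕ) (η : D) : ∃ (w : List Bool) (ξ : D), w.length = n ∧ η = D.pre w ξ := by
  induction n generalizing η with
  | zero => exact ⟨[], η, rfl, (pre_nil η).symm⟩
  | succ n ih =>
    have hfin : {m : ℕ | (η.1.tail).get m = true}.Finite := by
      have : {m : ℕ | (η.1.tail).get m = true} = Nat.succ ⁻¹' {n : ℕ | η.1.get n = true} := rfl
      rw [this]
      exact η.2.preimage (Nat.succ_injective.injOn)
    obtain ⟨w, ξ, hw, h⟩ := ih ⟨η.1.tail, hfin⟩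
    refine ⟨η.1.head :: w, ξ, by simp [hw], ?_⟩
    apply Subtype.ext
    have h2 := congrArg Subtype.val h
    change η.1 = (η.1.head :: w) ++ₛ ξ.1
    rw [Stream'.cons_append_stream]
    change η.1.tail = w ++ₛ ξ.1 at h2
    rw [← h2]
    exact (Stream'.eta η.1).symm

variable {G : Type*} [Group G]

/-- uniform depth form -/
def U (θ : G →* G) (F : D × G → D × G) : Prop :=
  ∃ N : ℕ, ∀ w : List Bool, w.length = N → ∃ (v : List Bool) (g : G), ∀ (η : D) (h : G),
    F (D.pre w η, h) = (D.pre v η, (θ^[η.ones]) g * h)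

theorem iter_mul (θ : G →* G) (n : ℕ) (a b : G) : (θ^[n]) (a * b) = (θ^[n]) a * (θ^[n]) b := by
  exact iterate_map_mul θ n a b

theorem iter_inv (θ : G →* G) (n : ℕ) (a : G) : (θ^[n]) a⁻¹ = ((θ^[n]) a)⁻¹ := by
  exact iterate_map_inv θ n a

theorem iter_one (θ : G →* G) (n : ℕ) : (θ^[n]) (1 : G) = 1 := by
  exact iterate_map_one θ n

theorem iter_add (θ : G →* G) (m n : ℕ) (a : G) : (θ^[m + n]) a = (θ^[n]) ((θ^[m]) a) := by
  rw [add_comm, Function.iterate_add_apply]

theorem u_of_inVG (θ : G →* G) {F : Equiv.Perm (D × G)} (h : InVG θ F) : U θ F := by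
  obtain ⟨k, u, v, g, hu, -, hF⟩ := h
  refine ⟨Finset.univ.sup (fun i => (u i).length), fun w hw => ?_⟩
  obtain ⟨i, ⟨ξ, hξ⟩, -⟩ := hu (w ++ₛ Stream'.const false)
  have hle : (u i).length ≤ w.length := by
    rw [hw]; exact Finset.le_sup (f := fun i => (u i).length) (Finset.mem_univ i)
  have h1 : u i = w.take (u i).length := by
    have h2 := congrArg (Stream'.take (u i).length) hξ
    rw [Stream'.take_append_of_le_length _ _ _ hle,
      Stream'.take_append_of_le_length _ _ _ le_rfl, List.take_length] at h2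
    exact h2.symm
  have h2 : w = u i ++ w.drop (u i).length := by
    conv_lhs => rw [← List.take_append_drop (u i).length w]
    rw [← h1]
  set s := w.drop (u i).length with hs
  refine ⟨v i ++ s, (θ^[cnt s]) (g i), fun η h => ?_⟩
  rw [h2, pre_append, hF, ones_pre, iter_add, pre_append]

theorem inVG_of_u (θ : G →* G) {F : Equiv.Perm (D × G)} (h : U θ F) : InVG θ F := by
  obtain ⟨N, hN⟩ := h
  choose v g hvg using hN
  have hfin : Finite {w : List Bool // w.length = N} := by
    exact (inferInstance : Finite (List.Vector Bool N))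
  obtain ⟨k, ⟨e⟩⟩ := Finite.exists_equiv_fin {w : List Bool // w.length = N}
  set V : Fin k → List Bool := fun i => v (e.symm i).1 (e.symm i).2 with hV
  refine ⟨k, fun i => (e.symm i).1, V, fun i => g (e.symm i).1 (e.symm i).2, ?_, ?_, ?_⟩
  · intro η
    refine ⟨e ⟨η.take N, by simp⟩, ⟨η.drop N, ?_⟩, ?_⟩
    · simp only [Equiv.symm_apply_apply]
      exact (Stream'.append_take_drop N η).symm
    · rintro j ⟨ξ, hξ⟩
      rw [← Equiv.symm_apply_eq]
      apply Subtype.ext
      have h2 := congrArg (Stream'.take N) hξ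
      have h3 : (e.symm j).1.length = N := (e.symm j).2
      have h4 : Stream'.take N ((e.symm j).1 ++ₛ ξ) = (e.symm j).1 := by
        rw [Stream'.take_append_of_le_length _ _ _ h3.ge, List.take_of_length_le h3.le]
      rw [h4] at h2
      exact h2.symm
  · intro η
    set L := Finset.univ.sup (fun i => (V i).length) with hL
    have hVL : ∀ i, (V i).length ≤ L := fun i =>
      Finset.le_sup (f := fun i => (V i).length) (Finset.mem_univ i)
    set η' : D := D.pre (η.take L) zeroD with hη'
    have key : ∀ i, (∃ ξ, η = V i ++ₛ ξ) ↔ ∃ ξ : D, η' = D.pre (V i) ξ := by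
      intro i
      have hl : (V i).length ≤ (η.take L).length := by simpa using hVL i
      constructor
      · rintro ⟨ξ, hξ⟩
        have h1 : V i = (η.take L).take (V i).length := by
          have h2 := congrArg (Stream'.take (V i).length) hξ
          rw [Stream'.take_append_of_le_length _ _ _ le_rfl, List.take_length] at h2
          have h4 := Stream'.take_append_of_le_length (V i).length (η.take L) (η.drop L) hl
          rw [Stream'.append_take_drop] at h4
          exact h2.symm.trans h4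
        refine ⟨D.pre ((η.take L).drop (V i).length) zeroD, ?_⟩
        rw [← pre_append]
        conv_rhs => rw [h1]
        have h5 : ((η.take L).take (V i).length).length = (V i).length := by
          rw [← h1]
        rw [h5, List.take_append_drop]
      · rintro ⟨ξ, hξ⟩
        have h1 := congrArg Subtype.val hξ
        change η.take L ++ₛ zeroD.1 = V i ++ₛ ξ.1 at h1
        have h2 := congrArg (Stream'.take (V i).length) h1
        rw [Stream'.take_append_of_le_length _ _ _ le_rfl, List.take_length,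
          Stream'.take_append_of_le_length _ _ _ hl] at h2
        refine ⟨((η.take L).drop (V i).length) ++ₛ η.drop L, ?_⟩
        rw [← Stream'.append_append_stream]
        conv_rhs => rw [← h2]
        have h5 : ((η.take L).take (V i).length).length = (V i).length := by
          rw [h2]
        rw [h5, List.take_append_drop, Stream'.append_take_drop]
    have hF : ∀ (i : Fin k) (ξ : D), η' = D.pre (V i) ξ →
        F (D.pre (e.symm i).1 ξ, ((θ^[ξ.ones]) (g (e.symm i).1 (e.symm i).2))⁻¹) = (η', 1) := by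
      intro i ξ h
      rw [hvg _ (e.symm i).2, mul_inv_cancel, h]
    obtain ⟨w, ξ, hw, hsp⟩ := exists_split N (F.symm (η', 1)).1
    have h1 : F (D.pre w ξ, (F.symm (η', 1)).2) = (η', 1) := by
      rw [← hsp]; simp
    rw [hvg w hw] at h1
    have h2 : η' = D.pre (v w hw) ξ := (congrArg Prod.fst h1).symm
    refine ⟨e ⟨w, hw⟩, ?_, ?_⟩
    · refine (key _).2 ⟨ξ, ?_⟩
      simp only [hV, Equiv.symm_apply_apply]
      exact h2
    · intro j hj
      obtain ⟨ξ', hξ'⟩ := (key _).1 hj
      have e1 := hF j ξ' hξ'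
      have e2 := hF (e ⟨w, hw⟩) ξ (by simp only [hV, Equiv.symm_apply_apply]; exact h2)
      have e3 := F.injective (e1.trans e2.symm)
      have e4 := congrArg Prod.fst e3
      simp only at e4
      have e5 := pre_left e4 ((e.symm j).2.trans (e.symm (e ⟨w, hw⟩)).2.symm)
      exact e.symm.injective (Subtype.ext e5)
  · intro i η h
    exact hvg _ (e.symm i).2 η h

/-- the maps of the system -/
noncomputable def simMap (θ : G →* G) (u v : List Bool) (g : G) (p : D × G) : D × G :=
  open Classical in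
  if h : ∃ η : D, p.1 = D.pre u η then
    (D.pre v h.choose, (θ^[h.choose.ones]) g * p.2) else p

theorem simMap_pre (θ : G →* G) (u v : List Bool) (g : G) (η : D) (h : G) :
    simMap θ u v g (D.pre u η, h) = (D.pre v η, (θ^[η.ones]) g * h) := by
  have hex : ∃ ξ : D, (D.pre u η, h).1 = D.pre u ξ := ⟨η, rfl⟩
  have h1 : hex.choose = η := (pre_inj hex.choose_spec).symm
  unfold simMap
  rw [dif_pos hex, h1]

/-- the point sets -/
def pts (w : List Bool) : Set (D × G) := {p | ∃ η : D, p.1 = D.pre w η}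

theorem mem_pts {w : List Bool} {p : D × G} : p ∈ pts (G := G) w ↔ ∃ (η : D) (h : G),
    p = (D.pre w η, h) := by
  constructor
  · rintro ⟨η, hη⟩
    exact ⟨η, p.2, Prod.ext hη rfl⟩
  · rintro ⟨η, h, rfl⟩
    exact ⟨η, rfl⟩

/-- the system -/
noncomputable def sys (θ : G →* G) : Sys (D × G) (List Bool) where
  root := []
  pts := pts
  ch := fun w => {w ++ [false], w ++ [true]}
  sim := fun u v => Set.range (simMap θ u v)

theorem lev_eq (θ : G →* G) (n : ℕ) : (sys θ).lev n = {w | w.length = n} := by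
  induction n with
  | zero =>
    ext w
    simp [Sys.lev, sys]
  | succ n ih =>
    ext w
    constructor
    · rintro ⟨B, hB, hC⟩
      rw [ih] at hB
      have hB' : B.length = n := hB
      rcases hC with rfl | rfl <;> simp [hB']
    · intro hw
      have hw' : w.length = n + 1 := hw
      have hne : w ≠ [] := by rintro rfl; simp at hw'
      refine ⟨w.dropLast, ?_, ?_⟩
      · rw [ih]; simp [hw']
      · have := List.dropLast_append_getLast hne
        change w = w.dropLast ++ [false] ∨ w = w.dropLast ++ [true]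
        rcases hb : w.getLast hne with _ | _
        · left; rw [← hb]; exact this.symm
        · right; rw [← hb]; exact this.symm

theorem good [Finite G] (θ : G →* G) : (sys θ).Good where
  root_pts := by
    refine eq_univ_of_forall fun p => ?_
    exact ⟨p.1, (pre_nil _).symm⟩
  pts_ne := fun B _ => ⟨(D.pre B zeroD, 1), zeroD, rfl⟩
  ch_sub := by
    rintro B - C hC p ⟨η, hη⟩
    rcases hC with rfl | rfl
    · exact ⟨D.pre [false] η, by rw [hη, pre_append]⟩
    · exact ⟨D.pre [true] η, by rw [hη, pre_append]⟩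
  ch_part := by
    rintro B - x ⟨η, hη⟩
    obtain ⟨w, ξ, hw, hsp⟩ := exists_split 1 η
    obtain ⟨b, rfl⟩ := List.length_eq_one_iff.1 hw
    refine ⟨B ++ [b], ⟨?_, ξ, ?_⟩, ?_⟩
    · change B ++ [b] = B ++ [false] ∨ B ++ [b] = B ++ [true]
      cases b <;> simp
    · rw [hη, hsp, pre_append]
    · rintro C ⟨hC, ξ', hξ'⟩
      have hC' : C.length = (B ++ [b]).length := by
        rcases hC with rfl | rfl <;> simp
      refine pre_left (η := ξ') (ξ := ξ) ?_ hC'
      rw [← hξ', hη, hsp, pre_append]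
  ch_fin := by
    rintro B -
    exact (Set.finite_singleton _).insert _
  ch_loop := by
    rintro B - C hC hp
    exfalso
    obtain ⟨b, rfl⟩ : ∃ b, C = B ++ [b] := by
      rcases hC with rfl | rfl
      · exact ⟨false, rfl⟩
      · exact ⟨true, rfl⟩
    have h1 : ((D.pre (B ++ [!b]) zeroD, 1) : D × G) ∈ pts (G := G) B :=
      ⟨D.pre [!b] zeroD, by rw [pre_append]⟩
    have h2 : ((D.pre (B ++ [!b]) zeroD, 1) : D × G) ∈ pts (G := G) (B ++ [b]) := by
      have : pts (G := G) (B ++ [b]) = pts (G := G) B := hp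
      rw [this]; exact h1
    obtain ⟨ξ, hξ⟩ := h2
    have h3 := pre_left (u := B ++ [!b]) (v := B ++ [b]) hξ (by simp)
    have h4 := List.append_cancel_left h3
    cases b <;> simp at h4
  maps := by
    rintro B B' - - h ⟨g, rfl⟩
    refine ⟨?_, ?_, ?_⟩
    · rintro p hp
      obtain ⟨η, a, rfl⟩ := mem_pts.1 hp
      exact ⟨η, by rw [simMap_pre]⟩
    · rintro p hp q hq hpq
      obtain ⟨η, a, rfl⟩ := mem_pts.1 hp
      obtain ⟨ξ, b, rfl⟩ := mem_pts.1 hq
      rw [simMap_pre, simMap_pre] at hpq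
      have h1 := pre_inj (congrArg Prod.fst hpq)
      subst h1
      have h2 := congrArg Prod.snd hpq
      simp only at h2
      rw [mul_left_cancel h2]
    · rintro p hp
      obtain ⟨η, a, rfl⟩ := mem_pts.1 hp
      refine ⟨(D.pre B η, ((θ^[η.ones]) g)⁻¹ * a), ⟨η, rfl⟩, ?_⟩
      rw [simMap_pre, mul_inv_cancel_left]
  fin := by
    rintro B -
    exact Set.finite_range _
  one := by
    rintro B -
    refine ⟨simMap θ B B 1, ⟨1, rfl⟩, fun p hp => ?_⟩
    obtain ⟨η, a, rfl⟩ := mem_pts.1 hp
    rw [simMap_pre, iter_one, one_mul]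
  inv := by
    rintro B B' - - h ⟨g, rfl⟩
    refine ⟨simMap θ B' B g⁻¹, ⟨g⁻¹, rfl⟩, fun p hp => ?_⟩
    obtain ⟨η, a, rfl⟩ := mem_pts.1 hp
    rw [simMap_pre, simMap_pre, iter_inv, inv_mul_cancel_left]
  comp := by
    rintro B B' B'' - - - h ⟨g, rfl⟩ k ⟨g', rfl⟩
    refine ⟨simMap θ B B'' (g' * g), ⟨g' * g, rfl⟩, fun p hp => ?_⟩
    obtain ⟨η, a, rfl⟩ := mem_pts.1 hp
    rw [simMap_pre, simMap_pre, simMap_pre, iter_mul, mul_assoc]
  res := by
    rintro B B' - - h ⟨g, rfl⟩ C hC
    obtain ⟨b, rfl, hb⟩ : ∃ b, C = B ++ [b] ∧ B' ++ [b] ∈ (sys (G := G) θ).ch B' := by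
      rcases hC with rfl | rfl
      · exact ⟨false, rfl, Or.inl rfl⟩
      · exact ⟨true, rfl, Or.inr rfl⟩
    refine ⟨B' ++ [b], hb, simMap θ (B ++ [b]) (B' ++ [b]) ((θ^[cnt [b]]) g),
      ⟨_, rfl⟩, fun p hp => ?_⟩
    obtain ⟨η, a, rfl⟩ := mem_pts.1 hp
    rw [simMap_pre, pre_append, pre_append, simMap_pre, ones_pre, iter_add]

theorem loc [Finite G] (θ : G →* G) (F : Equiv.Perm (D × G)) (h : InVG θ F) :
    (sys θ).Loc F := by
  obtain ⟨N, hN⟩ := u_of_inVG θ h
  refine ⟨N, fun B hB => ?_⟩
  rw [lev_eq] at hB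
  obtain ⟨v, g, hv⟩ := hN B hB
  refine ⟨v.length, v, ?_, simMap θ B v g, ⟨g, rfl⟩, fun p hp => ?_⟩
  · rw [lev_eq]; rfl
  · obtain ⟨η, a, rfl⟩ := mem_pts.1 hp
    rw [simMap_pre, hv]

end VG

theorem invg_one {G : Type*} [Group G] (θ : G →* G) : InVG θ (1 : Equiv.Perm (D × G)) := by
  apply VG.inVG_of_u
  refine ⟨0, fun w hw => ⟨w, 1, fun η h => ?_⟩⟩
  rw [VG.iter_one, one_mul]; rfl

theorem invg_mul {G : Type*} [Group G] (θ : G →* G) (F F' : Equiv.Perm (D × G))
    (h : InVG θ F) (h' : InVG θ F') : InVG θ (F * F') := by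
  apply VG.inVG_of_u
  obtain ⟨N, hN⟩ := VG.u_of_inVG θ h
  obtain ⟨N', hN'⟩ := VG.u_of_inVG θ h'
  refine ⟨N' + N, fun w hw => ?_⟩
  obtain ⟨v₁, g₁, h₁⟩ := hN' (w.take N') (by simp [hw])
  have hl : N ≤ (v₁ ++ w.drop N').length := by
    simp [hw]
  obtain ⟨v₂, g₂, h₂⟩ := hN ((v₁ ++ w.drop N').take N) (by
    rw [List.length_take]; exact min_eq_left hl)
  refine ⟨v₂ ++ (v₁ ++ w.drop N').drop N,
    (θ^[VG.cnt ((v₁ ++ w.drop N').drop N)]) g₂ * (θ^[VG.cnt (w.drop N')]) g₁, fun η k => ?_⟩
  have e1 : D.pre w η = D.pre (w.take N') (D.pre (w.drop N') η) := by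
    rw [← VG.pre_append, List.take_append_drop]
  have e2 : D.pre v₁ (D.pre (w.drop N') η) =
      D.pre ((v₁ ++ w.drop N').take N) (D.pre ((v₁ ++ w.drop N').drop N) η) := by
    rw [← VG.pre_append, ← VG.pre_append, List.take_append_drop]
  rw [Equiv.Perm.mul_apply, e1, h₁, e2, h₂, ← VG.pre_append, VG.ones_pre, VG.ones_pre, VG.iter_add,
    VG.iter_add, VG.iter_mul, mul_assoc]

theorem invg_inv {G : Type*} [Group G] (θ : G →* G) (F : Equiv.Perm (D × G))
    (h : InVG θ F) : InVG θ F⁻¹ := by
  obtain ⟨k, u, v, g, hu, hv, hF⟩ := h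
  refine ⟨k, v, u, fun i => (g i)⁻¹, hv, hu, fun i η a => ?_⟩
  rw [Equiv.Perm.inv_eq_iff_eq, hF, VG.iter_inv, mul_inv_cancel_left]

theorem exists_sys_of_VG {G : Type*} [Group G] [Finite G] (θ : G →* G) :
    ∃ Y : Sys (D × G) (List Bool), Y.Good ∧ ∀ F : Equiv.Perm (D × G), InVG θ F → Y.Loc F :=
  ⟨VG.sys θ, VG.good θ, VG.loc θ⟩

end Pool.Helper4.FSS
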